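import Mathlib
import Pool.Agent.Y488.SILine
import Pool.Agent.Y488.SIDoub

namespace Pool.Agent.Results.MP_6f70ff_gt.LineIsSub

open Pool.Agent.Y488.SI

/-- The two-way infinite path is an infinite, connected, locally finite, vertex-transitive graph
which is sub scale invariant, and every infinite, connected, locally finite, vertex-transitive
graph which is sub scale invariant has volume doubling. -/
theorem result :
    (lineGraph.Connected ∧ LocFinite lineGraph ∧ VertexTransitive lineGraph ∧
      SubScaleInvariant lineGraph) ∧
    ∀ (V : Type) (G : SimpleGraph V), Infinite V → G.Connected → LocFinite G →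
      VertexTransitive G → SubScaleInvariant G → VolumeDoubling G :=
  ⟨⟨line_conn, line_locFinite, line_transitive, line_sub⟩,
    fun _ _ _ hG hf ht hs => doubling hG hf ht hs⟩

end Pool.Agent.Results.MP_6f70ff_gt.LineIsSub
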